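import Mathlib

/-!
# The partial inner automorphism monoid of a finitely generated residually finite semigroup need not be
residually finite

Answer to Q1: **no**.  Let `S` be the semigroup of self-maps of `ℕ` consisting of the translations
`n ↦ n + i` (`i ≥ 1`) and of all constant maps `c_i`.  It is generated by `n ↦ n + 1` and `c_0`, and it is
residually finite (reduce modulo `m`).  For `g = c_i`, `h = c_j` the map `φ_{g,h}` is the partial bijection
with domain `{c_i}` and range `{c_j}`.  So `Inn(S)` contains all partial bijections `c_i ↦ c_j` and the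
empty map, an infinite Brandt semigroup, and every homomorphism to a finite semigroup
identifies these elements with the empty map.
-/

set_option autoImplicit false

namespace Pool.Agent.Results.MP_c9edc3_al.NotResiduallyFinite

section defs
variable {S : Type} [Semigroup S]

/-- Left multiplication by an element of `S` with an identity `none` adjoined.  (If `S` is already a
monoid, the adjoined identity acts like the identity of `S`.) -/
def lm : Option S → S → S
  | none, a => a
  | some g, a => g * a

/-- Right multiplication by an element of `S` with an identity `none` adjoined. -/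
def rm : S → Option S → S
  | a, none => a
  | a, some g => a * g

theorem lm_rm (g h : Option S) (a : S) : lm g (rm a h) = rm (lm g a) h := by
  cases g <;> cases h <;> simp [lm, rm, mul_assoc]

open Classical in
/-- The map `φ_{g,h} : D_{g,h} → S`, `a ↦ h a g`, with `D_{g,h} = {a : g h a = a = a g h}`, as a partial
bijection of `S` with inverse `φ_{h,g}`. -/
noncomputable def phi (g h : Option S) : S ≃. S where
  toFun a := if lm g (lm h a) = a ∧ rm (rm a g) h = a then some (rm (lm h a) g) else none
  invFun b := if lm h (lm g b) = b ∧ rm (rm b h) g = b then some (rm (lm g b) h) else none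
  inv a b := by
    have key : ∀ (g h : Option S) (a b : S), (lm g (lm h a) = a ∧ rm (rm a g) h = a) →
        rm (lm h a) g = b → (lm h (lm g b) = b ∧ rm (rm b h) g = b) ∧ rm (lm g b) h = a := by
      rintro g h a b ⟨h1, h2⟩ rfl
      refine ⟨⟨?_, ?_⟩, ?_⟩
      · rw [lm_rm, h1, lm_rm]
      · rw [← lm_rm, ← lm_rm, h2, lm_rm]
      · rw [lm_rm, h1, h2]
    constructor
    · intro hb
      by_cases hc : lm h (lm g b) = b ∧ rm (rm b h) g = b
      · simp only [if_pos hc, Option.some.injEq] at hb
        obtain ⟨k1, k2⟩ := key h g b a hc hb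
        simp only [if_pos k1, Option.some.injEq]
        exact k2
      · simp [if_neg hc] at hb
    · intro hb
      by_cases hc : lm g (lm h a) = a ∧ rm (rm a g) h = a
      · simp only [if_pos hc, Option.some.injEq] at hb
        obtain ⟨k1, k2⟩ := key g h a b hc hb
        simp only [if_pos k1, Option.some.injEq]
        exact k2
      · simp [if_neg hc] at hb

end defs

/-- The symmetric inverse monoid: partial bijections of `S`; `α * β` is `α` followed by `β`. -/
instance (S : Type) : Monoid (S ≃. S) where
  mul := PEquiv.trans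
  one := PEquiv.refl S
  mul_assoc := PEquiv.trans_assoc
  one_mul := PEquiv.refl_trans
  mul_one := PEquiv.trans_refl

/-- The partial inner automorphism monoid `Inn(S)`. -/
noncomputable def Inn (S : Type) [Semigroup S] : Submonoid (S ≃. S) :=
  Submonoid.closure {α | ∃ g h : Option S, α = phi g h}

/-- Residual finiteness of a semigroup. -/
def ResiduallyFinite (M : Type) [Mul M] : Prop :=
  ∀ x y : M, x ≠ y → ∃ (F : Type) (_ : Semigroup F) (_ : Finite F) (f : M →ₙ* F), f x ≠ f y

/-- Finite generation as a semigroup. -/
def FinitelyGenerated (S : Type) [Semigroup S] : Prop :=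
  ∃ T : Set S, T.Finite ∧ Subsemigroup.closure T = ⊤

/-! ### the semigroup -/

/-- `tr i` is the map `n ↦ n + (i + 1)` of `ℕ`, and `cst i` is the constant map with value `i`. -/
inductive Sg : Type
  | tr (i : ℕ)
  | cst (i : ℕ)

open Sg

/-- composition of maps -/
def Sg.m : Sg → Sg → Sg
  | tr i, tr j => tr (i + j + 1)
  | tr i, cst j => cst (j + (i + 1))
  | cst i, _ => cst i

instance : Semigroup Sg where
  mul := Sg.m
  mul_assoc x y z := by
    change Sg.m (Sg.m x y) z = Sg.m x (Sg.m y z)
    cases x <;> cases y <;> cases z <;> simp only [Sg.m] <;> congr 1 <;> ring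

theorem tr_tr (i j : ℕ) : tr i * tr j = tr (i + j + 1) := rfl
theorem tr_cst (i j : ℕ) : tr i * cst j = cst (j + (i + 1)) := rfl
theorem cst_mul (i : ℕ) (x : Sg) : cst i * x = cst i := by cases x <;> rfl

theorem fg : FinitelyGenerated Sg := by
  refine ⟨{tr 0, cst 0}, by simp, ?_⟩
  rw [eq_top_iff]
  intro x _
  have h0 : tr 0 ∈ Subsemigroup.closure ({tr 0, cst 0} : Set Sg) :=
    Subsemigroup.subset_closure (by simp)
  have h1 : cst 0 ∈ Subsemigroup.closure ({tr 0, cst 0} : Set Sg) :=
    Subsemigroup.subset_closure (by simp)
  cases x with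
  | tr i =>
    induction i with
    | zero => exact h0
    | succ i ih =>
      have : tr (i + 1) = tr i * tr 0 := by rw [tr_tr]
      rw [this]
      exact mul_mem (ih trivial) h0
  | cst i =>
    induction i with
    | zero => exact h1
    | succ i ih =>
      have : cst (i + 1) = tr 0 * cst i := by rw [tr_cst]
      rw [this]
      exact mul_mem h0 (ih trivial)

/-- reduction modulo `m` -/
def red (m : ℕ) : Sg →ₙ* Function.End (ZMod m) where
  toFun
    | tr i => fun x => x + (i + 1)
    | cst i => fun _ => i
  map_mul' x y := by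
    cases x with
    | tr i =>
      cases y with
      | tr j =>
        funext z
        change z + (((i + j + 1 : ℕ) : ZMod m) + 1) = (z + ((j : ZMod m) + 1)) + ((i : ZMod m) + 1)
        push_cast; ring
      | cst j =>
        funext z
        change (((j + (i + 1) : ℕ)) : ZMod m) = (j : ZMod m) + ((i : ZMod m) + 1)
        push_cast; ring
    | cst i => rw [cst_mul]; rfl

theorem cast_ne {m a b : ℕ} (ha : a < m) (hb : b < m) (hab : a ≠ b) : (a : ZMod m) ≠ b := by
  intro h
  rw [ZMod.natCast_eq_natCast_iff'] at h
  rw [Nat.mod_eq_of_lt ha, Nat.mod_eq_of_lt hb] at h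
  exact hab h

theorem rf : ResiduallyFinite Sg := by
  have key : ∀ x y : Sg, x ≠ y → ∃ m : ℕ, 0 < m ∧ red m x ≠ red m y := by
    intro x y hxy
    cases x with
    | tr i =>
      cases y with
      | tr j =>
        refine ⟨i + j + 3, by omega, fun h => ?_⟩
        have h1 := congrFun h 0
        change (0 : ZMod (i + j + 3)) + ((i : ZMod _) + 1) = 0 + ((j : ZMod _) + 1) at h1
        refine cast_ne (m := i + j + 3) (a := i) (b := j) (by omega) (by omega) ?_ ?_
        · rintro rfl; exact hxy rfl
        · linear_combination h1
      | cst j =>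
        refine ⟨2, by omega, fun h => ?_⟩
        have h1 := congrFun h 0
        have h2 := congrFun h 1
        change (0 : ZMod 2) + ((i : ZMod 2) + 1) = (j : ZMod 2) at h1
        change (1 : ZMod 2) + ((i : ZMod 2) + 1) = (j : ZMod 2) at h2
        have : (1 : ZMod 2) = 0 := by linear_combination h2 - h1
        exact absurd this (by decide)
    | cst i =>
      cases y with
      | tr j =>
        refine ⟨2, by omega, fun h => ?_⟩
        have h1 := congrFun h 0
        have h2 := congrFun h 1
        change (i : ZMod 2) = (0 : ZMod 2) + ((j : ZMod 2) + 1) at h1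
        change (i : ZMod 2) = (1 : ZMod 2) + ((j : ZMod 2) + 1) at h2
        have : (1 : ZMod 2) = 0 := by linear_combination h1 - h2
        exact absurd this (by decide)
      | cst j =>
        refine ⟨i + j + 3, by omega, fun h => ?_⟩
        have h1 : (i : ZMod (i + j + 3)) = (j : ZMod (i + j + 3)) := congrFun h 0
        refine cast_ne (m := i + j + 3) (a := i) (b := j) (by omega) (by omega) ?_ h1
        rintro rfl; exact hxy rfl
  intro x y hxy
  obtain ⟨m, hm, h⟩ := key x y hxy
  have : NeZero m := ⟨hm.ne'⟩
  exact ⟨Function.End (ZMod m), inferInstance, inferInstanceAs (Finite (ZMod m → ZMod m)),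
    red m, h⟩

/-! ### its partial inner automorphisms -/

open Classical in
theorem phi_cst (i j : ℕ) : phi (some (cst i)) (some (cst j)) = PEquiv.single (cst i) (cst j) := by
  ext a b
  have h1 : phi (some (cst i)) (some (cst j)) a =
      if cst i * (cst j * a) = a ∧ (a * cst i) * cst j = a then
        some ((cst j * a) * cst i) else none := rfl
  rw [h1]
  simp only [cst_mul]
  by_cases ha : a = cst i
  · subst ha
    simp [cst_mul, PEquiv.single_apply]
  · rw [if_neg (fun h => ha h.1.symm), PEquiv.single_apply_of_ne (Ne.symm ha)]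

/-- the element `c_i ↦ c_j` of `Inn(S)` -/
noncomputable def el (i j : ℕ) : Inn Sg :=
  ⟨phi (some (cst i)) (some (cst j)), Submonoid.subset_closure ⟨_, _, rfl⟩⟩

theorem el_mul (i j k : ℕ) : el i j * el j k = el i k := by
  classical
  apply Subtype.ext
  change PEquiv.trans (phi (some (cst i)) (some (cst j))) (phi (some (cst j)) (some (cst k))) =
    phi (some (cst i)) (some (cst k))
  rw [phi_cst, phi_cst, phi_cst, PEquiv.single_trans_single]

theorem el_mul_ne {i j k l : ℕ} (h : j ≠ k) : ((el i j * el k l : Inn Sg) : Sg ≃. Sg) = ⊥ := by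
  classical
  change PEquiv.trans (phi (some (cst i)) (some (cst j))) (phi (some (cst k)) (some (cst l))) = ⊥
  rw [phi_cst, phi_cst, PEquiv.single_trans_single_of_ne]
  intro h'
  injection h' with h'
  exact h h'

theorem el_ne_bot (i j : ℕ) : (el i j : Sg ≃. Sg) ≠ ⊥ := by
  classical
  change phi (some (cst i)) (some (cst j)) ≠ ⊥
  rw [phi_cst]
  intro h
  have := congrArg (fun α : Sg ≃. Sg => α (cst i)) h
  simp [PEquiv.single_apply] at this

/-- Every homomorphism of `Inn(S)` to a finite semigroup identifies `c_0 ↦ c_0` with the empty map. -/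
theorem collapse (F : Type) [Semigroup F] [Finite F] (f : Inn Sg →ₙ* F) :
    f (el 0 0) = f (el 0 0 * el 1 1) := by
  obtain ⟨i, j, hij, h⟩ := Finite.exists_ne_map_eq_of_infinite (fun i : ℕ => f (el i i))
  have hz : ∀ (i j k l i' j' k' l' : ℕ), j ≠ k → j' ≠ k' →
      el i j * el k l = el i' j' * el k' l' := by
    intro i j k l i' j' k' l' h h'
    apply Subtype.ext
    rw [el_mul_ne h, el_mul_ne h']
  have h1 : f (el i i) = f (el 0 0 * el 1 1) := by
    calc f (el i i) = f (el i i * el i i) := by rw [el_mul]
      _ = f (el i i) * f (el i i) := map_mul _ _ _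
      _ = f (el i i) * f (el j j) := by
        have : f (el i i) = f (el j j) := h
        rw [← this]
      _ = f (el i i * el j j) := (map_mul _ _ _).symm
      _ = f (el 0 0 * el 1 1) := by rw [hz i i j j 0 0 1 1 hij (by decide)]
  calc f (el 0 0) = f (el 0 i * el i i * el i 0) := by rw [el_mul, el_mul]
    _ = f (el 0 i) * f (el i i) * f (el i 0) := by rw [map_mul, map_mul]
    _ = f (el 0 i) * f (el 0 0 * el 1 1) * f (el i 0) := by rw [h1]
    _ = f (el 0 i * (el 0 0 * el 1 1) * el i 0) := by
      rw [map_mul f (el 0 i * (el 0 0 * el 1 1)) (el i 0),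
        map_mul f (el 0 i) (el 0 0 * el 1 1)]
    _ = f (el 0 0 * el 1 1) := by
      congr 1
      apply Subtype.ext
      have hb : ((el 0 0 * el 1 1 : Inn Sg) : Sg ≃. Sg) = ⊥ := el_mul_ne (by decide)
      change PEquiv.trans (PEquiv.trans (el 0 i : Sg ≃. Sg)
        ((el 0 0 * el 1 1 : Inn Sg) : Sg ≃. Sg)) (el i 0 : Sg ≃. Sg) = _
      rw [hb, PEquiv.trans_bot, PEquiv.bot_trans]

/-- **Theorem.** There is a finitely generated residually finite semigroup `S` such that `Inn(S)` is not
residually finite: two distinct elements of `Inn(S)` have the same image under every homomorphism to a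
finite semigroup. -/
theorem result : ∃ (S : Type) (_ : Semigroup S), FinitelyGenerated S ∧ ResiduallyFinite S ∧
    ¬ ResiduallyFinite (Inn S) ∧
    ∃ x y : Inn S, x ≠ y ∧ ∀ (F : Type) (_ : Semigroup F) (_ : Finite F) (f : Inn S →ₙ* F),
      f x = f y := by
  have hne : el 0 0 ≠ el 0 0 * el 1 1 := by
    intro h
    apply el_ne_bot 0 0
    rw [h]
    exact el_mul_ne (by decide)
  refine ⟨Sg, inferInstance, fg, rf, ?_, el 0 0, el 0 0 * el 1 1, hne,
    fun F _ _ f => collapse F f⟩
  intro h
  obtain ⟨F, iF, iF', f, hf⟩ := h _ _ hne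
  exact hf (collapse F f)

end Pool.Agent.Results.MP_c9edc3_al.NotResiduallyFinite
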